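import Pool.Agent.H858.AB.Cnt

/-!
# Counting words with a letter of large degree
-/

set_option autoImplicit false
set_option linter.unusedSectionVars false
set_option linter.unusedVariables false

open Finset

namespace Pool.Agent.H858.CK

open Pool.Agent.H858.AD (choose_le geom_le)
open Pool.Agent.H858.AB (Let1 WBS card_WBS)

/-- The number of small subsets of a set. -/
theorem small_le {α : Type*} [DecidableEq α] (S : Finset α) (e : ℕ) :
    ((S.powerset).filter fun B => B.card ≤ e).card ≤ (S.card + 1) ^ e := by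
  classical
  have h1 : ((S.powerset).filter fun B => B.card ≤ e).card =
      ∑ r ∈ range (e + 1), S.card.choose r := by
    rw [card_eq_sum_card_fiberwise (t := range (e + 1)) (f := fun S => S.card)
      (fun S hS => by
        rw [mem_coe, mem_filter] at hS
        rw [mem_coe, mem_range]
        exact Nat.lt_succ_of_le hS.2)]
    refine sum_congr rfl fun r hr => ?_
    have h2 : ((S.powerset).filter fun B => B.card ≤ e).filter (fun B => B.card = r) =
        powersetCard r S := by
      ext B
      rw [mem_filter, mem_filter, mem_powersetCard, mem_powerset]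
      have := mem_range.1 hr
      constructor
      · rintro ⟨⟨h3, _⟩, h⟩
        exact ⟨h3, h⟩
      · rintro ⟨h3, h⟩
        exact ⟨⟨h3, by omega⟩, h⟩
    rw [h2, card_powersetCard]
  rw [h1, add_pow]
  refine sum_le_sum fun r hr => ?_
  rw [one_pow, mul_one]
  have hr' := mem_range.1 hr
  calc S.card.choose r ≤ S.card ^ r := Nat.choose_le_pow _ _
    _ ≤ S.card ^ r * e.choose r := Nat.le_mul_of_pos_right _ (Nat.choose_pos (by omega))

section Words

variable {ι : Type*} [Fintype ι] [DecidableEq ι] (deg : ι → ℕ)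

/-- The words of total degree at most `i` with at most `i - s` letters of positive degree. -/
def SW (n i s : ℕ) : Finset (Fin n → ι) :=
  univ.filter fun I => ∑ t, deg (I t) ≤ i ∧ (univ.filter fun t => 1 ≤ deg (I t)).card + s ≤ i

variable {deg}

theorem card_SW [Nonempty (Let1 deg)] {i0 : ι} (h0 : ∀ i, deg i = 0 → i = i0) {n i s : ℕ}
    (hs : 0 < s) (hi : s ≤ i) (hn : 4 * Fintype.card ι * i ^ 2 ≤ n) :
    ((SW deg n i s).card : ℚ) ≤ 2 * (2 * Fintype.card ι * i ^ 2 / n : ℚ) ^ s *
      (n.choose i * (Fintype.card (Let1 deg) : ℚ) ^ i) := by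
  classical
  set b := Fintype.card ι with hb
  have hb0 : 0 < b := by
    rw [hb]
    exact Fintype.card_pos_iff.2 ⟨i0⟩
  set β := Fintype.card (Let1 deg) with hβd
  have hβ : 0 < β := Fintype.card_pos
  have hi0 : 0 < i := by omega
  have hn2 : 2 * i ≤ n := by nlinarith [Nat.mul_le_mul hb0 (Nat.mul_le_mul hi0 (le_refl i))]
  have hn0 : 0 < n := by omega
  have hn0q : (0 : ℚ) < n := by exact_mod_cast hn0
  -- the covering
  have hsub : SW deg n i s ⊆ ((univ : Finset (Finset (Fin n))).filter (fun S => S.card + s ≤ i)).biUnion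
        fun S => (S.powerset.filter fun B => B.card ≤ i - S.card).biUnion
          fun B => WBS deg B (S \ B) := by
    intro I hI
    rw [SW, mem_filter] at hI
    obtain ⟨_, h1, h2⟩ := hI
    set S := univ.filter fun t => 1 ≤ deg (I t) with hS
    set B := univ.filter fun t => 2 ≤ deg (I t) with hB
    have hBS : B ⊆ S := by
      intro t ht
      rw [hB, mem_filter] at ht
      rw [hS, mem_filter]
      exact ⟨ht.1, by omega⟩
    have h3 : S.card + B.card ≤ ∑ t, deg (I t) := by
      rw [hS, hB, card_filter, card_filter, ← sum_add_distrib]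
      refine sum_le_sum fun t _ => ?_
      split_ifs <;> omega
    rw [mem_biUnion]
    refine ⟨S, ?_, ?_⟩
    · rw [mem_filter]
      exact ⟨mem_univ _, h2⟩
    · rw [mem_biUnion]
      refine ⟨B, ?_, ?_⟩
      · rw [mem_filter, mem_powerset]
        exact ⟨hBS, by omega⟩
      · rw [WBS, mem_filter]
        refine ⟨mem_univ _, fun t => ?_, fun t => ?_⟩
        · rw [hB, mem_filter]
          simp
        · rw [mem_sdiff, hS, hB, mem_filter, mem_filter]
          simp only [mem_univ, true_and]
          omega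
  have h1 : (SW deg n i s).card ≤
      ∑ S ∈ (univ : Finset (Finset (Fin n))).filter (fun S => S.card + s ≤ i),
        (b * i) ^ (i - S.card) * β ^ i := by
    refine (card_le_card hsub).trans (card_biUnion_le.trans (sum_le_sum fun S hS => ?_))
    have hS' := (mem_filter.1 hS).2
    refine card_biUnion_le.trans ?_
    calc ∑ B ∈ S.powerset.filter (fun B => B.card ≤ i - S.card), (WBS deg B (S \ B)).card
        ≤ ∑ _B ∈ S.powerset.filter (fun B => B.card ≤ i - S.card), b ^ (i - S.card) * β ^ i := by
          refine sum_le_sum fun B hB => (card_WBS h0 B _).trans (Nat.mul_le_mul ?_ ?_)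
          · exact Nat.pow_le_pow_right hb0 (mem_filter.1 hB).2
          · refine Nat.pow_le_pow_right hβ ((card_le_card sdiff_subset).trans ?_)
            omega
      _ = (S.powerset.filter (fun B => B.card ≤ i - S.card)).card * (b ^ (i - S.card) * β ^ i) := by
          rw [sum_const, smul_eq_mul]
      _ ≤ (S.card + 1) ^ (i - S.card) * (b ^ (i - S.card) * β ^ i) :=
          Nat.mul_le_mul_right _ (small_le S _)
      _ ≤ i ^ (i - S.card) * (b ^ (i - S.card) * β ^ i) :=
          Nat.mul_le_mul_right _ (Nat.pow_le_pow_left (by omega) _)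
      _ = _ := by rw [mul_pow]; ring
  have h2 : ∑ S ∈ (univ : Finset (Finset (Fin n))).filter (fun S => S.card + s ≤ i),
        (b * i) ^ (i - S.card) * β ^ i =
      ∑ L ∈ range (i - s + 1), n.choose L * ((b * i) ^ (i - L) * β ^ i) := by
    have e1 : (univ : Finset (Finset (Fin n))).filter (fun S => S.card + s ≤ i) =
        (range (i - s + 1)).biUnion fun L => powersetCard L (univ : Finset (Fin n)) := by
      ext S
      simp only [mem_filter, mem_univ, true_and, mem_biUnion, mem_range, mem_powersetCard,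
        subset_univ]
      constructor
      · intro h
        exact ⟨S.card, by omega, rfl⟩
      · rintro ⟨L, hL, rfl⟩
        omega
    rw [e1, sum_biUnion]
    · refine sum_congr rfl fun L _ => ?_
      rw [sum_congr rfl (fun S hS => by rw [(mem_powersetCard.1 hS).2]), sum_const,
        card_powersetCard, card_univ, Fintype.card_fin, smul_eq_mul]
    · intro L _ L' _ hne
      rw [Function.onFun, Finset.disjoint_left]
      intro S hS hS'
      exact hne ((mem_powersetCard.1 hS).2.symm.trans (mem_powersetCard.1 hS').2)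
  set z : ℚ := 2 * b * i ^ 2 / n with hz
  have hz0 : 0 ≤ z := by positivity
  have hz2 : z ≤ 1 / 2 := by
    rw [hz, div_le_iff₀ hn0q]
    have : (4 * b * i ^ 2 : ℚ) ≤ n := by exact_mod_cast hn
    linarith
  have h3 : ∀ L ∈ range (i - s + 1), (n.choose L : ℚ) * ((b * i : ℚ) ^ (i - L) * (β : ℚ) ^ i) ≤
      (n.choose i * (β : ℚ) ^ i) * z ^ (i - L) := by
    intro L hL
    have hL' := mem_range.1 hL
    have h4 := choose_le (n := n) (L := i) hn2 hn0 (i - L) (by omega)
    rw [show i - (i - L) = L by omega] at h4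
    calc (n.choose L : ℚ) * ((b * i : ℚ) ^ (i - L) * (β : ℚ) ^ i) ≤
        ((2 * i / n : ℚ) ^ (i - L) * n.choose i) * ((b * i : ℚ) ^ (i - L) * (β : ℚ) ^ i) :=
          mul_le_mul_of_nonneg_right h4 (by positivity)
      _ = (n.choose i * (β : ℚ) ^ i) * ((2 * i / n) * (b * i)) ^ (i - L) := by
          rw [mul_pow]
          ring
      _ = _ := by
          congr 2
          rw [hz]
          ring
  calc ((SW deg n i s).card : ℚ) ≤
      ((∑ L ∈ range (i - s + 1), n.choose L * ((b * i) ^ (i - L) * β ^ i) : ℕ) : ℚ) := by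
        rw [← h2]
        exact_mod_cast h1
    _ = ∑ L ∈ range (i - s + 1), (n.choose L : ℚ) * ((b * i : ℚ) ^ (i - L) * (β : ℚ) ^ i) := by
        push_cast
        rfl
    _ ≤ ∑ L ∈ range (i - s + 1), (n.choose i * (β : ℚ) ^ i) * z ^ (i - L) := sum_le_sum h3
    _ = (n.choose i * (β : ℚ) ^ i) * ∑ L ∈ range (i - s + 1), z ^ (i - L) := by rw [mul_sum]
    _ = (n.choose i * (β : ℚ) ^ i) * (z ^ s * ∑ e ∈ range (i - s + 1), z ^ e) := by
        congr 1
        rw [mul_sum, ← sum_range_reflect (fun e => z ^ s * z ^ e)]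
        refine sum_congr rfl fun L hL => ?_
        have hL' := mem_range.1 hL
        rw [← pow_add]
        congr 1
        omega
    _ ≤ (n.choose i * (β : ℚ) ^ i) * (z ^ s * 2) := by
        refine mul_le_mul_of_nonneg_left (mul_le_mul_of_nonneg_left (geom_le hz0 hz2 _)
          (by positivity)) (by positivity)
    _ = _ := by ring

variable {ιY : Type*} [Fintype ιY] [DecidableEq ιY] {degY : ιY → ℕ}

/-- The words with small letters. -/
def Gs (degY : ιY → ℕ) (deg : ι → ℕ) (n i s : ℕ) : Finset (ιY × (Fin n → ι)) :=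
  univ.filter fun a => degY a.1 + ∑ t, deg (a.2 t) = i ∧ (degY a.1 < s ∧ ∀ t, deg (a.2 t) ≤ s)

/-- The words with a large letter. -/
def Bs (degY : ιY → ℕ) (deg : ι → ℕ) (n i s : ℕ) : Finset (ιY × (Fin n → ι)) :=
  univ.filter fun a => degY a.1 + ∑ t, deg (a.2 t) = i ∧ ¬ (degY a.1 < s ∧ ∀ t, deg (a.2 t) ≤ s)

/-- **Few words have a large letter.** -/
theorem card_Bs [Nonempty (Let1 deg)] {i0 : ι} (h0 : ∀ i, deg i = 0 → i = i0) {n i s : ℕ}
    (hs : 0 < s) (hn : 4 * Fintype.card ι * i ^ 2 ≤ n) :
    ((Bs degY deg n i s).card : ℚ) ≤ Fintype.card ιY * (4 * Fintype.card ι * i ^ 2 / n : ℚ) ^ s *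
      (n.choose i * (Fintype.card (Let1 deg) : ℚ) ^ i) := by
  classical
  by_cases hi : s ≤ i
  swap
  · have h1 : Bs degY deg n i s = ∅ := by
      rw [Bs, filter_eq_empty_iff]
      rintro a _ ⟨h2, h3⟩
      apply h3
      refine ⟨by omega, fun t => ?_⟩
      have h4 : deg (a.2 t) ≤ ∑ t, deg (a.2 t) :=
        single_le_sum (f := fun t => deg (a.2 t)) (fun _ _ => Nat.zero_le _) (mem_univ t)
      omega
    rw [h1, card_empty, Nat.cast_zero]
    positivity
  have hsub : Bs degY deg n i s ⊆ (univ : Finset ιY) ×ˢ SW deg n i s := by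
    intro a ha
    rw [Bs, mem_filter] at ha
    obtain ⟨_, h1, h2⟩ := ha
    rw [mem_product]
    refine ⟨mem_univ _, ?_⟩
    rw [SW, mem_filter]
    refine ⟨mem_univ _, by omega, ?_⟩
    have h3 : (univ.filter fun t => 1 ≤ deg (a.2 t)).card ≤ ∑ t, deg (a.2 t) := by
      rw [card_filter]
      refine sum_le_sum fun t _ => ?_
      split_ifs <;> omega
    by_cases h4 : degY a.1 < s
    · -- a large letter of `X`
      obtain ⟨t0, ht0⟩ : ∃ t, ¬ deg (a.2 t) ≤ s := by
        by_contra hcon
        push Not at hcon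
        exact h2 ⟨h4, hcon⟩
      have h5 : (univ.filter fun t => 1 ≤ deg (a.2 t)).card + s ≤ ∑ t, deg (a.2 t) := by
        rw [card_filter, ← add_sum_erase _ _ (mem_univ t0), ← add_sum_erase _ _ (mem_univ t0)]
        have h6 : ∑ t ∈ univ.erase t0, (if 1 ≤ deg (a.2 t) then 1 else 0) ≤
            ∑ t ∈ univ.erase t0, deg (a.2 t) := by
          refine sum_le_sum fun t _ => ?_
          split_ifs <;> omega
        rw [if_pos (by omega)]
        omega
      omega
    · omega
  have h1 : (Bs degY deg n i s).card ≤ Fintype.card ιY * (SW deg n i s).card := by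
    refine (card_le_card hsub).trans ?_
    rw [card_product, card_univ]
  have h2 := card_SW h0 hs hi hn
  have h3 : 2 * (2 * Fintype.card ι * i ^ 2 / n : ℚ) ^ s ≤ (4 * Fintype.card ι * i ^ 2 / n : ℚ) ^ s := by
    obtain ⟨s', rfl⟩ : ∃ s', s = s' + 1 := ⟨s - 1, by omega⟩
    rw [show (4 * Fintype.card ι * i ^ 2 / n : ℚ) = 2 * (2 * Fintype.card ι * i ^ 2 / n) by ring,
      mul_pow]
    refine mul_le_mul_of_nonneg_right ?_ (by positivity)
    have : (1 : ℚ) ≤ 2 ^ s' := one_le_pow₀ (by norm_num)
    rw [pow_succ]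
    linarith
  calc ((Bs degY deg n i s).card : ℚ) ≤ Fintype.card ιY * (SW deg n i s).card := by
        exact_mod_cast h1
    _ ≤ Fintype.card ιY * (2 * (2 * Fintype.card ι * i ^ 2 / n : ℚ) ^ s *
      (n.choose i * (Fintype.card (Let1 deg) : ℚ) ^ i)) := mul_le_mul_of_nonneg_left h2 (by positivity)
    _ ≤ Fintype.card ιY * ((4 * Fintype.card ι * i ^ 2 / n : ℚ) ^ s *
      (n.choose i * (Fintype.card (Let1 deg) : ℚ) ^ i)) := by
        refine mul_le_mul_of_nonneg_left (mul_le_mul_of_nonneg_right h3 (by positivity))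
          (by positivity)
    _ = _ := by ring

end Words

end Pool.Agent.H858.CK
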