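import Pool.Agent.H858.AB.Data
import Pool.Graph.R_seed8.H914R2.KCorr

/-!
# Approximate Kunneth projectors: definitions
-/

set_option autoImplicit false

open CategoryTheory AlgebraicGeometry

universe u v

namespace Pool.Agent.H858.CK

open Pool.Agent.H914 Pool.Agent.Y163 VarClass Obj WeilCohomology Pool.Agent.H858.AB

variable {k : Type u} [Field k] {𝒱 : VarClass k} {ops : CycleOps 𝒱}

/-- The cycle `π` on `X × X` acts on `H(X)` as the projector onto `H^i(X)`. -/
def IsPi (W : WeilCohomology.{u, v} ops) (X : 𝒱.Obj) (i : ℕ) (π : (X.prod X).Cycles) : Prop :=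
  ∀ j, ∀ x ∈ W.gr X j, act W X π x = if j = i then x else 0

/-- `P` acts as zero on `H^j(Z)`, `j ≠ i`. -/
def KillsOther (W : WeilCohomology.{u, v} ops) (Z : 𝒱.Obj) (i : ℕ) (P : (Z.prod Z).Cycles) : Prop :=
  ∀ j, j ≠ i → ∀ x ∈ W.gr Z j, act W Z P x = 0

/-- The image of `P` is contained in `H^i(Z)`. -/
def MapsInto (W : WeilCohomology.{u, v} ops) (Z : 𝒱.Obj) (i : ℕ) (P : (Z.prod Z).Cycles) : Prop :=
  ∀ x, act W Z P x ∈ W.gr Z i

/-- `P` acts as an idempotent operator. -/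
def IsIdem (W : WeilCohomology.{u, v} ops) (Z : 𝒱.Obj) (P : (Z.prod Z).Cycles) : Prop :=
  act W Z P ∘ₗ act W Z P = act W Z P

/-- The operator `P - 1`. -/
noncomputable def idErr (W : WeilCohomology.{u, v} ops) (Z : 𝒱.Obj) (P : (Z.prod Z).Cycles) :
    W.H Z →ₗ[W.K] W.H Z :=
  act W Z P - LinearMap.id

/-- The rank of `P - 1` on `H^i(Z)`. -/
noncomputable def idRank (W : WeilCohomology.{u, v} ops) (Z : 𝒱.Obj) (i : ℕ)
    (P : (Z.prod Z).Cycles) : ℕ :=
  Module.finrank W.K ((W.gr Z i).map (idErr W Z P))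

/-- The cycle `P` on `Z × Z` acts on `H(Z)` as an idempotent operator, with image in `H^i(Z)`, which
is zero on `H^j(Z)` for `j ≠ i`, and the codimension of the image in `H^i(Z)` is at most `ε b_i(Z)`.
(The codimension is the rank of `P - 1` on `H^i(Z)`, i.e. of the difference of `P` and of the Kunneth
projector.) -/
structure ApproxPi (W : WeilCohomology.{u, v} ops) (Z : 𝒱.Obj) (i : ℕ) (P : (Z.prod Z).Cycles)
    (ε : ℚ) : Prop where
  off : KillsOther W Z i P
  mem : MapsInto W Z i P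
  idem : IsIdem W Z P
  rank : (idRank W Z i P : ℚ) ≤ ε * AB.betti W Z i

/-- The transposed correspondence. -/
noncomputable def transp (ops : CycleOps 𝒱) (Z : 𝒱.Obj) (P : (Z.prod Z).Cycles) :
    (Z.prod Z).Cycles :=
  ops.pull (swap Z Z) P

/-- The number `b' (4 b i ^ 2 / n) ^ s`. -/
def shareK (s b b' n i : ℕ) : ℚ := b' * (4 * b * i ^ 2 / n) ^ s

/-- `b_1(X) > 0`, and the cycles `πX d`, `d ≤ s`, and `πY f`, `f < s`, act as the Kunneth projectors
of `X` in the degrees `d ≤ s`, and of `Y` in the degrees `f < s`, for the theory `W`. -/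
def Known (W : WeilCohomology.{u, v} ops) (s : ℕ) {X Y : 𝒱.Obj} (πX : ℕ → (X.prod X).Cycles)
    (πY : ℕ → (Y.prod Y).Cycles) : Prop :=
  W.gr X 1 ≠ ⊥ ∧ (∀ d, d ≤ s → IsPi W X d (πX d)) ∧ ∀ f, f < s → IsPi W Y f (πY f)

/-- The cycle `P i` and its transposed cycle are approximate Kunneth projectors of the degrees `i` and
`2 dim Z - i`, with the errors `ε i`, for all `i`. -/
def AlmostKunneth (W : WeilCohomology.{u, v} ops) (Z : 𝒱.Obj) (P : ℕ → (Z.prod Z).Cycles)
    (ε : ℕ → ℚ) : Prop :=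
  ∀ i, ApproxPi W Z i (P i) (ε i) ∧
    (i ≤ 2 * Z.dim → ApproxPi W Z (2 * Z.dim - i) (transp ops Z (P i)) (ε i))

/-- The variety `Y × X ^ (n + 1)`. -/
noncomputable def ZZ (Y X : 𝒱.Obj) (n : ℕ) : 𝒱.Obj := Y.prod (pw X n)

end Pool.Agent.H858.CK
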