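import Pool.Agent.H858.CK.Cnt
import Pool.Agent.H858.CK.Data
import Pool.Agent.H858.AB.Main

/-!
# Products of projectors
-/

set_option autoImplicit false
set_option linter.unusedSectionVars false
set_option linter.unusedVariables false

open CategoryTheory AlgebraicGeometry Finset

universe u v w

namespace Pool.Agent.H858.CK

open Pool.Agent.H914 hiding iter map_iter
open Pool.Agent.H447 Pool.Agent.W534 VarClass Obj WeilCohomology
open Pool.Agent.H281R3.HT Pool.Agent.W536.RR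
open Pool.Agent.Y163 (pw pr tup tup_pr pw_hom_ext pr_zero_succ pr_succ dim_pw HBasis dualEq
  dualEq_apply mon mon_eq exists_monBasis)
open Pool.Agent.H858.FC (PP PP_eq PP_gr PP_mul tr_PP PP_alg prod_filter_one)
open Pool.Agent.H858.AD (EE EE_gr EE_mul tr_EE EE_alg exists_enum exists_wbasis exists_unit)
open Pool.Agent.H858.AB
open Pool.Agent.R940 (repr_zero)

variable {k : Type u} [Field k] {𝒱 : VarClass k} {ops : CycleOps 𝒱}
  {W : WeilCohomology.{u, v} ops} {X Y Z S P : 𝒱.Obj}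

/-- The external product of correspondences. -/
noncomputable def prodCyc (ops : CycleOps 𝒱) {X : 𝒱.Obj} :
    ∀ n, (Fin (n + 1) → (X.prod X).Cycles) → ((pw X n).prod (pw X n)).Cycles
  | 0, c => c 0
  | n + 1, c => ops.mul (ops.pull (q1 X (pw X n)) (c 0))
      (ops.pull (q2 X (pw X n)) (prodCyc ops n (Fin.tail c)))

theorem prodCyc_mem : ∀ (n : ℕ) {c : Fin (n + 1) → (X.prod X).Cycles}
    (_ : ∀ t, (X.prod X).IsCyc X.dim (c t)),
    ((pw X n).prod (pw X n)).IsCyc (pw X n).dim (prodCyc ops n c)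
  | 0, c, h => h 0
  | n + 1, c, h => ops.mul_mem (ops.pull_mem (q1 X (pw X n)) (h 0)) (ops.pull_mem (q2 X (pw X n))
      (prodCyc_mem n fun t => h t.succ))

theorem corr_prodCyc : ∀ (n : ℕ) {c : Fin (n + 1) → (X.prod X).Cycles}
    (_ : ∀ t, (X.prod X).IsCyc X.dim (c t)) (a : Fin (n + 1) → W.H X),
    W.corr (W.cl _ (prodCyc ops n c)) (PP W X n a) =
      PP W X n (fun i => W.corr (W.cl _ (c i)) (a i))
  | 0, c, h, a => rfl
  | n + 1, c, h, a => by
    have e1 : W.cl ((X.prod (pw X n)).prod (X.prod (pw X n))) (ops.mul (ops.pull (q1 X (pw X n)) (c 0))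
        (ops.pull (q2 X (pw X n)) (prodCyc ops n (Fin.tail c)))) = W.map (q1 X (pw X n))
          (W.cl _ (c 0)) * W.map (q2 X (pw X n)) (W.cl _ (prodCyc ops n (Fin.tail c))) := by
      rw [W.cl_mul, W.cl_pull, W.cl_pull]
    change W.corr (W.cl ((X.prod (pw X n)).prod (X.prod (pw X n))) (ops.mul
      (ops.pull (q1 X (pw X n)) (c 0)) (ops.pull (q2 X (pw X n)) (prodCyc ops n (Fin.tail c)))))
        (W.map (fst X (pw X n)) (a 0) *
          W.map (snd X (pw X n)) (PP W X n (Fin.tail a))) = W.map (fst X (pw X n))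
            (W.corr (W.cl _ (c 0)) (a 0)) * W.map (snd X (pw X n))
              (PP W X n (fun i => W.corr (W.cl _ (Fin.tail c i)) (Fin.tail a i)))
    rw [e1, corr_ext _ (W.cl_mem (prodCyc_mem (ops := ops) n (c := Fin.tail c) fun t => h t.succ)),
      corr_prodCyc n (c := Fin.tail c) fun t => h t.succ]

/-- The external product with a correspondence on `Y`. -/
noncomputable def extCyc (ops : CycleOps 𝒱) {Y X : 𝒱.Obj} (n : ℕ) (c0 : (Y.prod Y).Cycles)
    (c : Fin (n + 1) → (X.prod X).Cycles) : ((Y.prod (pw X n)).prod (Y.prod (pw X n))).Cycles :=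
  ops.mul (ops.pull (q1 Y (pw X n)) c0) (ops.pull (q2 Y (pw X n)) (prodCyc ops n c))

theorem extCyc_mem {n : ℕ} {c0 : (Y.prod Y).Cycles} (h0 : (Y.prod Y).IsCyc Y.dim c0)
    {c : Fin (n + 1) → (X.prod X).Cycles} (h : ∀ t, (X.prod X).IsCyc X.dim (c t)) :
    ((Y.prod (pw X n)).prod (Y.prod (pw X n))).IsCyc (Y.prod (pw X n)).dim (extCyc ops n c0 c) :=
  ops.mul_mem (ops.pull_mem _ h0) (ops.pull_mem _ (prodCyc_mem n h))

theorem corr_extCyc {n : ℕ} {c0 : (Y.prod Y).Cycles}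
    {c : Fin (n + 1) → (X.prod X).Cycles} (h : ∀ t, (X.prod X).IsCyc X.dim (c t)) (y : W.H Y)
    (a : Fin (n + 1) → W.H X) : W.corr (W.cl _ (extCyc ops n c0 c)) (EE W Y X n y a) =
      EE W Y X n (W.corr (W.cl _ c0) y) (fun i => W.corr (W.cl _ (c i)) (a i)) := by
  rw [extCyc, W.cl_mul, W.cl_pull, W.cl_pull, EE, corr_ext _ (W.cl_mem (prodCyc_mem n h)),
    corr_prodCyc n h, EE]

/-- The indices of the products of projectors. -/
def ixs (s n i : ℕ) : Finset (Fin s × (Fin (n + 1) → Fin (s + 1))) :=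
  univ.filter fun p => (p.1 : ℕ) + ∑ t, (p.2 t : ℕ) = i

/-- The approximate projector. -/
noncomputable def pcyc (ops : CycleOps 𝒱) {Y X : 𝒱.Obj} (πY : ℕ → (Y.prod Y).Cycles)
    (πX : ℕ → (X.prod X).Cycles) (s n i : ℕ) :
    ((Y.prod (pw X n)).prod (Y.prod (pw X n))).Cycles :=
  ∑ p ∈ ixs s n i, extCyc ops n (πY p.1) (fun t => πX (p.2 t))

theorem pcyc_mem {πY : ℕ → (Y.prod Y).Cycles} {πX : ℕ → (X.prod X).Cycles} {s : ℕ}
    (hY : ∀ f, f < s → (Y.prod Y).IsCyc Y.dim (πY f))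
    (hX : ∀ d, d ≤ s → (X.prod X).IsCyc X.dim (πX d)) (n i : ℕ) :
    ((Y.prod (pw X n)).prod (Y.prod (pw X n))).IsCyc (Y.prod (pw X n)).dim
      (pcyc ops πY πX s n i) := by
  rw [pcyc]
  exact Finset.sum_induction _
    (fun u => ((Y.prod (pw X n)).prod (Y.prod (pw X n))).IsCyc (Y.prod (pw X n)).dim u)
    (fun a b => SmVar.IsCyc.add) (SmVar.IsCyc.zero _ _) (fun p _ => extCyc_mem (hY _ p.1.2)
      fun t => hX _ (Nat.lt_succ_iff.1 (p.2 t).2))

/-- The action on a word. -/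
theorem corr_pcyc {ιY ι : Type v} [Fintype ιY] [Fintype ι] [DecidableEq ιY] [DecidableEq ι]
    {BY : HBasis W Y ιY} {B : HBasis W X ι}
    {πY : ℕ → (Y.prod Y).Cycles} {πX : ℕ → (X.prod X).Cycles} {s : ℕ}
    (hX : ∀ d, d ≤ s → (X.prod X).IsCyc X.dim (πX d))
    (hpY : ∀ f, f < s → IsPi W Y f (πY f)) (hpX : ∀ d, d ≤ s → IsPi W X d (πX d)) (n i : ℕ)
    (a : ιY × (Fin (n + 1) → ι)) :
    W.corr (W.cl _ (pcyc ops πY πX s n i)) (EE W Y X n (BY.b a.1) (fun t => B.b (a.2 t))) =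
      if a ∈ Gs BY.deg B.deg (n + 1) i s then EE W Y X n (BY.b a.1) (fun t => B.b (a.2 t))
      else 0 := by
  classical
  have key : ∀ p ∈ ixs s n i, W.corr (W.cl _ (extCyc ops n (πY p.1) (fun t => πX (p.2 t))))
      (EE W Y X n (BY.b a.1) (fun t => B.b (a.2 t))) =
        (if BY.deg a.1 = p.1 ∧ ∀ t, B.deg (a.2 t) = p.2 t then
          EE W Y X n (BY.b a.1) (fun t => B.b (a.2 t)) else 0) := by
    intro p _
    rw [corr_extCyc fun t => hX _ (Nat.lt_succ_iff.1 (p.2 t).2)]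
    have e1 : W.corr (W.cl (Y.prod Y) (πY p.1)) (BY.b a.1) =
        (if BY.deg a.1 = p.1 then (1 : W.K) else 0) • BY.b a.1 := by
      have := hpY p.1 p.1.2 _ _ (BY.mem a.1)
      rw [AB.act] at this
      rw [this]
      split_ifs
      · rw [one_smul]
      · rw [zero_smul]
    have e2 : (fun t => W.corr (W.cl (X.prod X) (πX (p.2 t))) (B.b (a.2 t))) =
        fun t => (if B.deg (a.2 t) = p.2 t then (1 : W.K) else 0) • B.b (a.2 t) := by
      funext t
      have := hpX (p.2 t) (Nat.lt_succ_iff.1 (p.2 t).2) _ _ (B.mem (a.2 t))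
      rw [AB.act] at this
      rw [this]
      split_ifs
      · rw [one_smul]
      · rw [zero_smul]
    rw [e1, e2, EE, EE, PP_smul, map_smul, map_smul, smul_mul_smul_comm]
    by_cases h1 : BY.deg a.1 = p.1
    · by_cases h2 : ∀ t, B.deg (a.2 t) = p.2 t
      · rw [if_pos h1, if_pos ⟨h1, h2⟩, prod_congr rfl fun t _ => if_pos (h2 t), prod_const_one,
          one_mul, one_smul]
      · have h2' := h2
        push Not at h2'
        obtain ⟨t, ht⟩ := h2'
        rw [prod_eq_zero (mem_univ t) (if_neg ht), mul_zero, zero_smul,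
          if_neg (fun h => h2 h.2)]
    · rw [if_neg h1, zero_mul, zero_smul, if_neg (fun h => h1 h.1)]
  rw [pcyc, map_sum, corr_sum, sum_congr rfl key]
  split_ifs with ha
  · obtain ⟨_, h1, h2, h3⟩ := mem_filter.1 ha
    rw [sum_eq_single_of_mem (⟨⟨BY.deg a.1, h2⟩, fun t => ⟨B.deg (a.2 t), Nat.lt_succ_iff.2 (h3 t)⟩⟩ :
      Fin s × (Fin (n + 1) → Fin (s + 1)))]
    · rw [if_pos ⟨rfl, fun t => rfl⟩]
    · rw [ixs, mem_filter]
      exact ⟨mem_univ _, h1⟩
    · intro p _ hp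
      rw [if_neg]
      rintro ⟨h4, h5⟩
      apply hp
      refine Prod.ext (Fin.ext h4.symm) (funext fun t => Fin.ext (h5 t).symm)
  · refine sum_eq_zero fun p hp => ?_
    rw [if_neg]
    rintro ⟨h4, h5⟩
    apply ha
    have hp' := (mem_filter.1 hp).2
    rw [Gs, mem_filter]
    refine ⟨mem_univ _, ?_, ?_, fun t => ?_⟩
    · rw [← hp', h4, sum_congr rfl fun t _ => h5 t]
    · rw [h4]
      exact p.1.2
    · rw [h5]
      exact Nat.lt_succ_iff.1 (p.2 t).2

end Pool.Agent.H858.CK
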