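import Pool.Agent.H858.CK.Cyc

/-!
# The approximate Kunneth projectors
-/

set_option autoImplicit false
set_option linter.unusedSectionVars false
set_option linter.unusedVariables false

open CategoryTheory AlgebraicGeometry Finset

universe u v w

namespace Pool.Agent.H858.CK

open Pool.Agent.H914 hiding iter map_iter
open Pool.Agent.H447 Pool.Agent.W534 VarClass Obj WeilCohomology
open Pool.Agent.H281R3.HT Pool.Agent.W536.RR
open Pool.Agent.Y163 (pw pr tup tup_pr pw_hom_ext pr_zero_succ pr_succ dim_pw HBasis dualEq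
  dualEq_apply mon mon_eq exists_monBasis exists_hbasis)
open Pool.Agent.H858.FC (PP PP_eq PP_gr PP_mul tr_PP PP_alg prod_filter_one)
open Pool.Agent.H858.AD (EE EE_gr EE_mul tr_EE EE_alg exists_enum exists_wbasis exists_unit)
open Pool.Agent.H858.AB
open Pool.Agent.R940 (repr_zero)

variable {k : Type u} [Field k] {𝒱 : VarClass k} {ops : CycleOps 𝒱}
  {W : WeilCohomology.{u, v} ops} {X Y Z S P : 𝒱.Obj}

/-- Adjoint operators have the same rank. -/
theorem rank_adj {F G : W.H Z →ₗ[W.K] W.H Z} (h : ∀ a b, W.tr Z (F a * b) = W.tr Z (a * G b)) :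
    Module.finrank W.K (LinearMap.range F) = Module.finrank W.K (LinearMap.range G) := by
  have h1 : (dualEq W Z).toLinearMap ∘ₗ G = F.dualMap ∘ₗ (dualEq W Z).toLinearMap := by
    apply LinearMap.ext
    intro b
    apply LinearMap.ext
    intro a
    change dualEq W Z (G b) a = dualEq W Z b (F a)
    rw [dualEq_apply, dualEq_apply, h]
  have h2 : Module.finrank W.K (LinearMap.range F.dualMap) =
      Module.finrank W.K (LinearMap.range F) := LinearMap.finrank_range_dualMap_eq_finrank_range F
  have h3 : Module.finrank W.K (LinearMap.range ((dualEq W Z).toLinearMap ∘ₗ G)) =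
      Module.finrank W.K (LinearMap.range G) := by
    rw [LinearMap.range_comp]
    exact LinearEquiv.finrank_map_eq (dualEq W Z) (LinearMap.range G)
  have h4 : LinearMap.range (F.dualMap ∘ₗ (dualEq W Z).toLinearMap) =
      LinearMap.range F.dualMap := LinearMap.range_comp_of_range_eq_top _ (dualEq W Z).range
  rw [← h2, ← h4, ← h1, h3]

/-- Poincare duality for the Betti numbers. -/
theorem finrank_gr_dual {i j : ℕ} (hij : i + j = 2 * Z.dim) :
    Module.finrank W.K (W.gr Z i) = Module.finrank W.K (W.gr Z j) := by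
  have h1 : ∀ l, LinearMap.range (proj (W.isInternal Z) l) = W.gr Z l := by
    intro l
    apply le_antisymm
    · rintro _ ⟨x, rfl⟩
      exact proj_mem _ _ _
    · intro x hx
      exact ⟨x, proj_same _ hx⟩
  rw [← h1 i, ← h1 j]
  refine rank_adj fun a b => ?_
  refine gr_induction (W.isInternal Z) (p := fun a => W.tr Z (proj (W.isInternal Z) i a * b) =
    W.tr Z (a * proj (W.isInternal Z) j b)) ?_ ?_ a
  · intro l a ha
    refine gr_induction (W.isInternal Z) (p := fun b => W.tr Z (proj (W.isInternal Z) i a * b) =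
      W.tr Z (a * proj (W.isInternal Z) j b)) ?_ ?_ b
    · intro m b hb
      by_cases hl : l = i
      · subst hl
        rw [proj_same _ ha]
        by_cases hm : m = j
        · subst hm
          rw [proj_same _ hb]
        · rw [proj_ne _ hb hm, mul_zero, map_zero]
          exact W.tr_eq_zero (W.mul_mem ha hb) (by omega)
      · rw [proj_ne _ ha hl, zero_mul, map_zero]
        by_cases hm : m = j
        · subst hm
          rw [proj_same _ hb]
          exact (W.tr_eq_zero (W.mul_mem ha hb) (by omega)).symm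
        · rw [proj_ne _ hb hm, mul_zero, map_zero]
    · intro b b' hb hb'
      rw [map_add, mul_add, mul_add, map_add, map_add, hb, hb']
  · intro a a' ha ha'
    rw [map_add, add_mul, add_mul, map_add, map_add, ha, ha']

/-- The rank of `1 - F` for an idempotent operator `F` with image in `H^i`. -/
theorem rank_compl {F : W.H Z →ₗ[W.K] W.H Z} {i : ℕ} (hmem : ∀ x, F x ∈ W.gr Z i)
    (hid : ∀ x, F (F x) = F x) :
    Module.finrank W.K ((W.gr Z i).map (F - LinearMap.id)) + Module.finrank W.K (LinearMap.range F) =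
      Module.finrank W.K (W.gr Z i) := by
  have h1 := LinearMap.finrank_range_add_finrank_ker ((F - LinearMap.id) ∘ₗ (W.gr Z i).subtype)
  have h2 : LinearMap.range ((F - LinearMap.id) ∘ₗ (W.gr Z i).subtype) =
      (W.gr Z i).map (F - LinearMap.id) := by
    rw [LinearMap.range_comp, Submodule.range_subtype]
  have h3 : LinearMap.ker ((F - LinearMap.id) ∘ₗ (W.gr Z i).subtype) =
      (LinearMap.range F).comap (W.gr Z i).subtype := by
    ext x
    rw [LinearMap.mem_ker, Submodule.mem_comap, LinearMap.mem_range]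
    change F x.1 - x.1 = 0 ↔ ∃ y, F y = x.1
    rw [sub_eq_zero]
    constructor
    · intro h
      exact ⟨x.1, h⟩
    · rintro ⟨y, hy⟩
      rw [← hy, hid]
  have h4 : Module.finrank W.K ((LinearMap.range F).comap (W.gr Z i).subtype) =
      Module.finrank W.K (LinearMap.range F) := by
    have h5 : LinearMap.range F ≤ W.gr Z i := by
      rintro _ ⟨x, rfl⟩
      exact hmem x
    exact (Submodule.comapSubtypeEquivOfLe h5).finrank_eq
  rw [h2, h3, h4] at h1
  exact h1

/-- **The transposed projector.** -/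
theorem transp_approx {i j : ℕ} (hij : i + j = 2 * Z.dim) {c : (Z.prod Z).Cycles}
    (hc : (Z.prod Z).IsCyc Z.dim c) {ε : ℚ} (h : ApproxPi W Z i c ε) :
    ApproxPi W Z j (transp ops Z c) ε := by
  set F := AB.act W Z c with hF
  set G := AB.act W Z (transp ops Z c) with hG
  have hadj : ∀ a b, W.tr Z (F a * b) = W.tr Z (a * G b) := by
    intro a b
    have h1 := tr_corr_swap (W.cl_mem hc) a b
    have h2 : G = W.corr (W.map (swap Z Z) (W.cl (Z.prod Z) c)) := by
      rw [hG, AB.act, transp, W.cl_pull]
    rw [h2]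
    exact h1
  have hoff : ∀ l, l ≠ j → ∀ x ∈ W.gr Z l, G x = 0 := by
    intro l hl x hx
    apply nondeg_right
    intro a
    rw [← hadj]
    exact W.tr_eq_zero (W.mul_mem (h.mem a) hx) (by omega)
  have hmem : ∀ x, G x ∈ W.gr Z j := by
    intro x
    have h1 : G x = proj (W.isInternal Z) j (G x) := by
      rw [← sub_eq_zero]
      apply nondeg_right
      intro a
      refine gr_induction (W.isInternal Z) (p := fun a => W.tr Z (a * (G x -
        proj (W.isInternal Z) j (G x))) = 0) ?_ ?_ a
      · intro l a ha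
        rw [mul_sub, map_sub, sub_eq_zero]
        by_cases hl : l = i
        · subst hl
          have key : ∀ y, W.tr Z (a * proj (W.isInternal Z) j y) = W.tr Z (a * y) := by
            intro y
            refine gr_induction (W.isInternal Z) (p := fun y =>
              W.tr Z (a * proj (W.isInternal Z) j y) = W.tr Z (a * y)) ?_ ?_ y
            · intro m y hy
              by_cases hm : m = j
              · subst hm
                rw [proj_same _ hy]
              · rw [proj_ne _ hy hm, mul_zero, map_zero]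
                exact (W.tr_eq_zero (W.mul_mem ha hy) (by omega)).symm
            · intro y y' hy hy'
              rw [map_add, mul_add, mul_add, map_add, map_add, hy, hy']
          exact (key _).symm
        · rw [← hadj, h.off l hl a ha, zero_mul, map_zero]
          exact (W.tr_eq_zero (W.mul_mem ha (proj_mem _ _ _)) (by omega)).symm
      · intro a a' ha ha'
        rw [add_mul, map_add, ha, ha', add_zero]
    rw [h1]
    exact proj_mem _ _ _
  have hid : ∀ x, G (G x) = G x := by
    intro x
    rw [← sub_eq_zero]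
    apply nondeg_right
    intro a
    have h7 : F (F a) = F a := LinearMap.congr_fun h.idem a
    rw [mul_sub, map_sub, ← hadj, ← hadj, ← hadj, h7, sub_self]
  refine ⟨hoff, hmem, LinearMap.ext hid, ?_⟩
  have h1 := rank_compl h.mem (fun a => LinearMap.congr_fun h.idem a)
  have h2 := rank_compl hmem hid
  have h3 := rank_adj hadj
  have h4 := finrank_gr_dual (W := W) hij
  have h5 : Module.finrank W.K ((W.gr Z j).map (G - LinearMap.id)) =
      Module.finrank W.K ((W.gr Z i).map (F - LinearMap.id)) := by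
    have h6 := h1.trans (h4.trans h2.symm)
    rw [h3] at h6
    exact (Nat.add_right_cancel h6).symm
  have h6 : ((Module.finrank W.K ((W.gr Z i).map (F - LinearMap.id)) : ℕ) : ℚ) ≤
    ε * (Module.finrank W.K (W.gr Z i) : ℕ) := h.rank
  have e1 : idRank W Z j (transp ops Z c) =
    Module.finrank W.K ((W.gr Z j).map (G - LinearMap.id)) := rfl
  have e2 : AB.betti W Z j = Module.finrank W.K (W.gr Z j) := rfl
  rw [e1, e2, ← h4, h5]
  exact h6

/-- **The approximate projector.** -/
theorem approx (hX1 : W.gr X 1 ≠ ⊥) {πY : ℕ → (Y.prod Y).Cycles} {πX : ℕ → (X.prod X).Cycles}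
    {s : ℕ} (hs : 0 < s) (hX : ∀ d, d ≤ s → (X.prod X).IsCyc X.dim (πX d))
    (hpY : ∀ f, f < s → IsPi W Y f (πY f)) (hpX : ∀ d, d ≤ s → IsPi W X d (πX d)) (n i : ℕ) :
    ApproxPi W (Y.prod (pw X n)) i (pcyc ops πY πX s n i)
      (shareK s (bettiSum W X) (bettiSum W Y) (n + 1) i) := by
  classical
  obtain ⟨x1, hx1, hx10⟩ := (Submodule.ne_bot_iff _).1 hX1
  obtain ⟨ι, hι, ⟨B⟩⟩ := exists_hbasis W X
  obtain ⟨ιY, hιY, ⟨BY⟩⟩ := exists_hbasis W Y
  have := Fintype.ofFinite ι
  have := Fintype.ofFinite ιY
  have hX1' : (1 : W.H X) ≠ 0 := by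
    intro h
    apply hx10
    rw [← mul_one x1, h, mul_zero]
  obtain ⟨i0, h0, h1, hi0⟩ := exists_unit (B := B) hX1'
  obtain ⟨b, hb⟩ := exists_wbasis BY B n
  have hL : Nonempty (Let1 B.deg) := by
    by_contra hcon
    apply hx10
    apply B.b.repr.injective
    ext i
    rw [map_zero]
    by_contra hne'
    apply hne'
    refine repr_zero (W.isInternal X).submodule_iSupIndep B.b B.deg B.mem hx1 fun hi => ?_
    exact hcon ⟨⟨i, hi⟩⟩
  have hbgr : ∀ a : ιY × (Fin (n + 1) → ι),
      b a ∈ W.gr (Y.prod (pw X n)) (BY.deg a.1 + ∑ t, B.deg (a.2 t)) := by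
    intro a
    rw [hb]
    exact EE_gr (BY.mem _) fun t => B.mem _
  set F := AB.act W (Y.prod (pw X n)) (pcyc ops πY πX s n i) with hF
  have hact : ∀ a, F (b a) = if a ∈ Gs BY.deg B.deg (n + 1) i s then b a else 0 := by
    intro a
    rw [hF, AB.act, hb]
    exact corr_pcyc hX hpY hpX n i a
  have hmem : ∀ x, F x ∈ W.gr (Y.prod (pw X n)) i := by
    intro x
    rw [← b.sum_repr x, map_sum]
    refine Submodule.sum_mem _ fun a _ => ?_
    rw [map_smul, hact]
    split_ifs with ha
    · have h2 := hbgr a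
      rw [(mem_filter.1 ha).2.1] at h2
      exact Submodule.smul_mem _ _ h2
    · rw [smul_zero]
      exact Submodule.zero_mem _
  have hoff : ∀ j, j ≠ i → ∀ x ∈ W.gr (Y.prod (pw X n)) j, F x = 0 := by
    intro j hj x hx
    rw [← b.sum_repr x, map_sum]
    refine sum_eq_zero fun a _ => ?_
    rw [map_smul, hact]
    split_ifs with ha
    · rw [repr_zero (W.isInternal _).submodule_iSupIndep b
          (fun a => BY.deg a.1 + ∑ t, B.deg (a.2 t)) hbgr hx
          (by have := (mem_filter.1 ha).2.1; omega), zero_smul]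
    · rw [smul_zero]
  have hid : ∀ x, F (F x) = F x := by
    intro x
    have h2 : F ∘ₗ F = F := by
      refine b.ext fun a => ?_
      rw [LinearMap.comp_apply, hact]
      split_ifs with ha
      · rw [hact, if_pos ha]
      · rw [map_zero]
    exact congrArg (fun G => G x) h2
  refine ⟨hoff, hmem, LinearMap.ext hid, ?_⟩
  have e0 : idRank W (Y.prod (pw X n)) i (pcyc ops πY πX s n i) =
    Module.finrank W.K ((W.gr (Y.prod (pw X n)) i).map (F - LinearMap.id)) := rfl
  rw [e0]
  -- the rank
  have hrank : Module.finrank W.K ((W.gr (Y.prod (pw X n)) i).map (F - LinearMap.id)) ≤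
      (Bs BY.deg B.deg (n + 1) i s).card := by
    have hle : (W.gr (Y.prod (pw X n)) i).map (F - LinearMap.id) ≤ Submodule.span W.K
          (((Bs BY.deg B.deg (n + 1) i s).image fun a => F (b a) - b a :
            Finset (W.H (Y.prod (pw X n)))) : Set (W.H (Y.prod (pw X n)))) := by
      rintro _ ⟨x, hx, rfl⟩
      rw [← b.sum_repr x, map_sum]
      refine Submodule.sum_mem _ fun a _ => ?_
      rw [map_smul]
      by_cases hdeg : BY.deg a.1 + ∑ t, B.deg (a.2 t) = i
      · by_cases hag : BY.deg a.1 < s ∧ ∀ t, B.deg (a.2 t) ≤ s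
        · have hin : a ∈ Gs BY.deg B.deg (n + 1) i s := mem_filter.2 ⟨mem_univ _, hdeg, hag⟩
          rw [LinearMap.sub_apply, hact, if_pos hin, LinearMap.id_apply, sub_self, smul_zero]
          exact Submodule.zero_mem _
        · refine Submodule.smul_mem _ _ (Submodule.subset_span ?_)
          rw [mem_coe, LinearMap.sub_apply, LinearMap.id_apply]
          exact mem_image_of_mem (fun a => F (b a) - b a) (mem_filter.2 ⟨mem_univ _, hdeg, hag⟩)
      · rw [repr_zero (W.isInternal _).submodule_iSupIndep b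
          (fun a => BY.deg a.1 + ∑ t, B.deg (a.2 t)) hbgr hx hdeg, zero_smul]
        exact Submodule.zero_mem _
    exact (Submodule.finrank_mono hle).trans ((finrank_span_finset_le_card _).trans card_image_le)
  have hcard : bettiSum W X = Fintype.card ι := Module.finrank_eq_card_basis B.b
  have hcardY : bettiSum W Y = Fintype.card ιY := Module.finrank_eq_card_basis BY.b
  have hsmall : Module.finrank W.K ((W.gr (Y.prod (pw X n)) i).map (F - LinearMap.id)) ≤
      AB.betti W (Y.prod (pw X n)) i := Submodule.finrank_map_le _ _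
  rw [hcard, hcardY, shareK]
  by_cases hY0 : Fintype.card ιY = 0
  · have h2 : (Bs BY.deg B.deg (n + 1) i s).card = 0 := by
      rw [card_eq_zero, eq_empty_iff_forall_notMem]
      intro a _
      have := Fintype.card_eq_zero_iff.1 hY0
      exact this.elim a.1
    rw [h2, Nat.le_zero] at hrank
    rw [hrank, Nat.cast_zero]
    positivity
  have hY1 : (1 : W.H Y) ≠ 0 := by
    intro h
    apply hY0
    rw [Fintype.card_eq_zero_iff]
    refine ⟨fun y => BY.b.ne_zero y ?_⟩
    rw [← mul_one (BY.b y), h, mul_zero]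
  obtain ⟨y0, h0Y, h1Y, hy0⟩ := exists_unit (B := BY) hY1
  have hnq : (0 : ℚ) < ((n + 1 : ℕ) : ℚ) := by positivity
  by_cases hn : 4 * Fintype.card ι * i ^ 2 ≤ n + 1
  swap
  · have h2 : (1 : ℚ) ≤ Fintype.card ιY * (4 * Fintype.card ι * i ^ 2 / (n + 1 : ℕ)) ^ s := by
      have h3 : (1 : ℚ) ≤ 4 * Fintype.card ι * i ^ 2 / (n + 1 : ℕ) := by
        rw [le_div_iff₀ hnq, one_mul]
        have : n + 1 ≤ 4 * Fintype.card ι * i ^ 2 := by omega
        exact_mod_cast this
      have h4 : (1 : ℚ) ≤ (4 * Fintype.card ι * i ^ 2 / (n + 1 : ℕ)) ^ s := one_le_pow₀ h3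
      have h5 : (1 : ℚ) ≤ Fintype.card ιY := by exact_mod_cast Nat.pos_of_ne_zero hY0
      nlinarith
    calc (Module.finrank W.K ((W.gr (Y.prod (pw X n)) i).map (F - LinearMap.id)) : ℚ) ≤
        AB.betti W (Y.prod (pw X n)) i := by exact_mod_cast hsmall
      _ = 1 * AB.betti W (Y.prod (pw X n)) i := (one_mul _).symm
      _ ≤ _ := mul_le_mul_of_nonneg_right h2 (by positivity)
  -- the Betti number
  have hbetti : (Gd BY.deg B.deg (n + 1) i).card ≤ AB.betti W (Y.prod (pw X n)) i := by
    have hG : ∀ a : Gd BY.deg B.deg (n + 1) i, b a.1 ∈ W.gr (Y.prod (pw X n)) i := by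
      intro a
      have ha := (mem_filter.1 a.2).2
      have h2 := hbgr a.1
      rwa [ha.1, ha.2.2, zero_add] at h2
    have hli : LinearIndependent W.K (fun a : Gd BY.deg B.deg (n + 1) i =>
        (⟨b a.1, hG a⟩ : W.gr (Y.prod (pw X n)) i)) := by
      refine LinearIndependent.of_comp (W.gr (Y.prod (pw X n)) i).subtype ?_
      exact b.linearIndependent.comp _ Subtype.val_injective
    have h2 := hli.fintype_card_le_finrank
    rwa [Fintype.card_coe] at h2
  have hBd := card_Bs (degY := BY.deg) (deg := B.deg) hi0 hs hn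
  have hGd := card_Gd (degY := BY.deg) (deg := B.deg) h0Y h0 (n + 1) i
  calc (Module.finrank W.K ((W.gr (Y.prod (pw X n)) i).map (F - LinearMap.id)) : ℚ) ≤
      (Bs BY.deg B.deg (n + 1) i s).card := by exact_mod_cast hrank
    _ ≤ _ := hBd
    _ ≤ _ := by
      refine mul_le_mul_of_nonneg_left ?_ (by positivity)
      exact_mod_cast hGd.trans hbetti

/-- **Almost all of the cohomology is split off by algebraic Kunneth projectors.** -/
theorem main {s : ℕ} (hs : 0 < s) {πX : ℕ → (X.prod X).Cycles}
    (hX : ∀ d, d ≤ s → (X.prod X).IsCyc X.dim (πX d)) {πY : ℕ → (Y.prod Y).Cycles}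
    (hY : ∀ f, f < s → (Y.prod Y).IsCyc Y.dim (πY f)) (n : ℕ) :
    ∃ P : ℕ → ((ZZ Y X n).prod (ZZ Y X n)).Cycles,
      (∀ i, ((ZZ Y X n).prod (ZZ Y X n)).IsCyc (ZZ Y X n).dim (P i)) ∧
      ∀ W : WeilCohomology.{u, v} ops, Known W s πX πY →
        AlmostKunneth W (ZZ Y X n) P (shareK s (bettiSum W X) (bettiSum W Y) (n + 1)) := by
  refine ⟨fun i => pcyc ops πY πX s n i, fun i => pcyc_mem hY hX n i, fun W h i => ?_⟩
  have h2 := approx h.1 hs hX h.2.2 h.2.1 n i
  have e1 : (ZZ Y X n).dim = (Y.prod (pw X n)).dim := rfl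
  exact ⟨h2, fun hi => transp_approx (by omega) (pcyc_mem hY hX n i) h2⟩

end Pool.Agent.H858.CK
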